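import Pool.Agent.Helper57.Reg.Last

/-!
# `D^(1)(X) = A^(1)(X)` for uniformly regular polynomially convex sets

For a uniformly regular, polynomially convex compact plane set `X` whose interior is connected and
dense in `X`, the algebras `D^(1)(X)` and `A^(1)(X)` always coincide.
-/

set_option autoImplicit false

namespace Pool.Agent.Results.MP_8e12aa_an.DEqualsA

open Filter MeasureTheory Metric Set Topology

/-- `X` is uniformly regular: for some constant `k > 0` all points `z, w` of `X` are joined by a path
in `X` of length at most `k |z - w|` (the length is the total variation of the path on `[0,1]`). -/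
def UniformlyRegular (X : Set ℂ) : Prop :=
  ∃ k : ℝ, 0 < k ∧ ∀ z ∈ X, ∀ w ∈ X, ∃ γ : ℝ → ℂ, ContinuousOn γ (Icc 0 1) ∧ γ 0 = z ∧ γ 1 = w ∧
    (∀ t ∈ Icc (0:ℝ) 1, γ t ∈ X) ∧ eVariationOn γ (Icc 0 1) ≤ ENNReal.ofReal (k * ‖z - w‖)

/-- `X` is polynomially convex: its complement in the plane is connected. -/
def PolynomiallyConvex (X : Set ℂ) : Prop := IsConnected Xᶜ

/-- Membership in `D^(1)(X)`: `f` has at every point of `X` a complex derivative (relative to `X`),
and the derivative is continuous on `X`. Only the values of `f` on `X` matter. -/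
def D1 (X : Set ℂ) : Set (ℂ → ℂ) :=
  {f | ∃ f' : ℂ → ℂ, ContinuousOn f' X ∧ ∀ a ∈ X, HasDerivWithinAt f (f' a) X a}

/-- Membership in `A^(1)(X)`: `f` is continuous on `X`, analytic on the interior of `X`, and its
derivative on the interior extends to a continuous function on `X`. Only the values of `f` on `X`
matter. -/
def A1 (X : Set ℂ) : Set (ℂ → ℂ) :=
  {f | ContinuousOn f X ∧ DifferentiableOn ℂ f (interior X) ∧
    ∃ g : ℂ → ℂ, ContinuousOn g X ∧ ∀ z ∈ interior X, g z = deriv f z}

/-- For every uniformly regular, polynomially convex compact plane set `X` with connected and dense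
interior one has `D^(1)(X) = A^(1)(X)`. -/
theorem result (X : Set ℂ) (hX : IsCompact X) (hreg : UniformlyRegular X)
    (hpc : PolynomiallyConvex X) (hint : IsConnected (interior X)) (hdense : X ⊆ closure (interior X)) :
    D1 X = A1 X := by
  apply Subset.antisymm
  · rintro f ⟨f', hf'c, hf'⟩
    have hd : ∀ z ∈ interior X, HasDerivAt f (f' z) z := fun z hz =>
      (hf' z (interior_subset hz)).hasDerivAt (mem_interior_iff_mem_nhds.1 hz)
    exact ⟨fun a ha => (hf' a ha).continuousWithinAt,
      fun z hz => (hd z hz).differentiableAt.differentiableWithinAt, f', hf'c,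
      fun z hz => (hd z hz).deriv.symm⟩
  · rintro f ⟨hfc, hfd, g, hgc, hg⟩
    obtain ⟨k, hk, h⟩ := hreg
    exact ⟨g, hgc, Pool.Agent.Helper57.Reg.main hX (hint.nonempty.mono interior_subset) hpc hint hdense
      hk h hfc hfd hgc hg⟩

end Pool.Agent.Results.MP_8e12aa_an.DEqualsA
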